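import Pool.Agent.Helper706_TE.Main7

/-!
# Finite time blow-up for the Euler equations on `𝕋³` with an additional smoothing bilinear term

The complete Euler equations on `𝕋³` are perturbed by a bilinear term `B(u, u)` of NEGATIVE order `-s`,
`0 ≤ s < 1/4`, which is as small as one likes, acts only on frequencies as high as one likes, conserves
the energy, the helicity and the momentum and commutes with all isometries of the torus and with
Galilei transformations. Nevertheless shear flows, steady solutions of the Euler equations, become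
singular in finite time under the perturbed equations.
-/

set_option autoImplicit false

open Set Filter Topology MeasureTheory
open scoped ComplexConjugate ContDiff

namespace Pool.Agent.Results.MP_b0497c_an.NegativeOrderPerturbation

open H706T

/-- For all `0 ≤ s < 1/4`, `δ > 0` and `N` there is a symbol `M` of a real bilinear operator `B = op M`
into the divergence-free fields on `𝕋³` such that
(1) `M` has the order `-s` with norm at most `δ`: `|M(p, q)(a, b)| ≤ δ |k|^(-s) |a| |b|` for `k = p`, `q`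
and `p + q`;
(2) only triads of collinear frequencies of length at least `N` interact;
(3) for all periodic `C¹` fields the series of `B(v, w)` converges absolutely, `∫ B(v, w) · w = 0`
(energy), `∫ B(v, v) · curl v = 0` (helicity), `∫ B(v, w) = 0` (momentum), and `B` commutes with
translations and with all permutations and changes of sign of the coordinates, and does not change
if constants are added to `v` and `w` (Galilei invariance);
(4) classical solutions of the Euler equations with the additional term `B(u, u)` are unique and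
conserve the energy;
(5) for every frequency `n`, `|n| ≥ N`, with two non-zero components of different absolute values,
there is a unit vector `e` orthogonal to `n` such that
(a) if `g` is `2π`-periodic, odd about some point `c` and non-negative on `[c, c + π]`, then every
classical solution on `[0, T)` with the initial velocity `g(n·x) e` satisfies
`(1 - 4s) δ T ∫ g(φ) sin(φ - c) dφ ≤ 98304 π |n|^s`, the integral being over `[c, c + π]`;
(b) for all `A > 0` the initial velocity `A sin(n·x) e` has a maximal classical solution, on `[0, T)`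
with `0 < T ≤ 196608 |n|^s / ((1 - 4s) δ A)`. -/
theorem result (s : ℝ) (hs : 0 ≤ s) (hs' : s < 1 / 4) (δ : ℝ) (hδ : 0 < δ) (N : ℕ) :
    ∃ M : K → K → W → W → W, IsSymbol δ M ∧
      (∀ p q k a b, (k = p ∨ k = q ∨ k = p + q) →
        Real.sqrt (∑ i, (k i : ℝ) ^ 2) ^ s * ‖M p q a b‖ ≤ δ * (‖a‖ * ‖b‖)) ∧
      (∀ p q a b, M p q a b ≠ 0 → (∀ i j, p i * q j = p j * q i) ∧
        (N : ℤ) ^ 2 ≤ ∑ i, p i ^ 2 ∧ (N : ℤ) ^ 2 ≤ ∑ i, q i ^ 2 ∧
        (N : ℤ) ^ 2 ≤ ∑ i, (p + q) i ^ 2) ∧
      (∀ v w : V → V, ContDiff ℝ 1 v → ContDiff ℝ 1 w → Periodic3 v → Periodic3 w →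
        (Summable fun z : K × K => ‖M z.1 z.2 (coeff v z.1) (coeff w z.2)‖) ∧
        (∫ x in torus, ∑ i, op M v w x i * w x i = 0) ∧
        (∫ x in torus, ∑ i, op M v v x i * curl v x i = 0) ∧
        (∀ i, ∫ x in torus, op M v w x i = 0) ∧
        (∀ a x, op M (fun y => v (y + a)) (fun y => w (y + a)) x = op M v w (x + a)) ∧
        (∀ σ ε v' w', (∀ x, v' (actV σ ε x) = actV σ ε (v x)) →
          (∀ x, w' (actV σ ε x) = actV σ ε (w x)) →
          ∀ x, op M v' w' (actV σ ε x) = actV σ ε (op M v w x)) ∧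
        ∀ c c' x, op M (fun y => v y + c) (fun y => w y + c') x = op M v w x) ∧
      (∀ (T : ℝ) (u w : ℝ → V → V) (p q : ℝ → V → ℝ), IsSolution M T u p → IsSolution M T w q →
        w 0 = u 0 → ∀ t ∈ Ico 0 T, w t = u t) ∧
      (∀ (T : ℝ) (u : ℝ → V → V) (p : ℝ → V → ℝ), IsSolution M T u p → ∀ t ∈ Ico 0 T,
        ∫ x in torus, ∑ i, u t x i ^ 2 = ∫ x in torus, ∑ i, u 0 x i ^ 2) ∧
      ∀ n : K, (∃ i j, n i ≠ 0 ∧ n j ≠ 0 ∧ |n i| ≠ |n j|) → (N : ℤ) ^ 2 ≤ ∑ i, n i ^ 2 →
        ∃ e : V, ∑ i, e i ^ 2 = 1 ∧ ∑ i, (n i : ℝ) * e i = 0 ∧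
          (∀ (g : ℝ → ℝ) (c T : ℝ) (u : ℝ → V → V) (p : ℝ → V → ℝ),
            (∀ φ, g (φ + 2 * Real.pi) = g φ) → (∀ φ, g (c - φ) = -g (c + φ)) →
            (∀ φ ∈ Icc 0 Real.pi, 0 ≤ g (c + φ)) →
            IsSolution M T u p → (∀ x, u 0 x = g (dot n x) • e) →
            (1 - 4 * s) * δ * T * ∫ φ in c..(c + Real.pi), g φ * Real.sin (φ - c)
              ≤ 98304 * Real.pi * Real.sqrt (∑ i, (n i : ℝ) ^ 2) ^ s) ∧
          ∀ A : ℝ, 0 < A → ∃ T : ℝ, 0 < T ∧
            (1 - 4 * s) * δ * A * T ≤ 196608 * Real.sqrt (∑ i, (n i : ℝ) ^ 2) ^ s ∧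
            ∃ u : ℝ → V → V, IsSolution M T u (fun _ _ => 0) ∧
              (u 0 = fun x => (A * Real.sin (dot n x)) • e) ∧
              ∀ (T' : ℝ) (w : ℝ → V → V) (q : ℝ → V → ℝ), IsSolution M T' w q → w 0 = u 0 →
                T' ≤ T ∧ ∀ t ∈ Ico 0 T', w t = u t :=
  mainN hs hs' hδ N

end Pool.Agent.Results.MP_b0497c_an.NegativeOrderPerturbation
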