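import Pool.Agent.H946_EU.M6

/-!
# The vorticity near one maximum point before a singularity of the Euler equations

The stretching rate at a point `x` is `3 / (4 π)` times the integral over `y` of
`(n · ξ) (ω(y) · (ξ × n)) / |x - y|³`, `n = (y - x) / |y - x|`, `ξ = ω(x) / |ω(x)|`. Here it is shown
that before a singularity the contributions to this integral from the ball of radius
`r = (E (T - t)² / ε)^(1/5)`, `E = ∫ |u(0)|²`, about every point of maximal vorticity are so large
that their positive part alone has a time integral of more than `b log (1 / (T - t))` for some times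
arbitrarily close to `T`, for each `b < 4 π / 3`. The radius may be chosen smaller if the kinetic
energy in the ball, in a moving frame, is small.

Proof: (1) for the weights `(1 - |z|²)₊³`, the average of the rate of strain at `x` over the radius
`r` is controlled by the kinetic energy in the ball, and its derivative with respect to `r` is a
weighted integral of `(n · ξ) (ω · (ξ × n))`; (2) the derivatives add up to the kernel `|x - y|⁻³`
with the constant `3 / (4 π)`; (3) the kinetic energy is conserved; (4) the maximum of the vorticity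
grows at most at the stretching rate at any point where it is attained.
-/

open MeasureTheory Set
open scoped ENNReal Topology

namespace Pool.Agent.Results.MP_b0497c_an.OneMaximum

open Pool.Agent.H708R2.EulerSign Pool.Agent.H708R2.EulerTypeI Pool.Agent.W786.Max
  Pool.Agent.H946.EU

/-- For every `b < 4 π / 3` there is an `ε > 0` with the following property. Let `(u, p)` be a `C²`
periodic solution of the Euler equations on `[0, T)` with infinite Beale-Kato-Majda integral and let
`g ≥ 0` be such that for almost every `t ∈ (t₀, T)` there are a point `x` of maximal vorticity and a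
radius `r > 0` with

* `∫_{|y - x| < r} ((n · ξ) (ω(y) · (ξ × n)))₊ / |y - x|³ dy ≤ g(t)`, and
* `(T - t)² E ≤ ε r⁵`, where `E` is the integral of `|u(0)|²` over the torus and `r ≤ π`, or the
  integral of `|u(t) - a|²` over the ball of radius `r` about `x`, for some vector `a`.

Then for every `C₀` there are `t` arbitrarily close to `T` with
`∫_{t₀}^t g > b log (1 / (T - t)) + C₀`. -/
theorem result (b : ℝ) (hb : b < 4 * Real.pi / 3) : ∃ ε : ℝ, 0 < ε ∧
    ∀ (T : ℝ) (u : ℝ → V → V) (p : ℝ → V → ℝ), IsC2Solution T u p → ¬ BKMFinite T u →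
      ∀ (t₀ : ℝ) (g : ℝ → ℝ), t₀ ∈ Ioo 0 T → (∀ t ∈ Ioo t₀ T, 0 ≤ g t) →
      (∀ t ∈ Ioo t₀ T, IntegrableOn g (Ioo t₀ t)) →
      (∀ᵐ t, t ∈ Ioo t₀ T → ∃ (x : V) (r : ℝ), IsMaxPt u t x ∧ 0 < r ∧
        ((r ≤ Real.pi ∧ (T - t) ^ 2 * kin (u 0) ≤ ε * r ^ 5) ∨
          ∃ a : V, (T - t) ^ 2 * ke (u t) a x r ≤ ε * r ^ 5) ∧
        stE (u t) (dirv (u t) x) x r ≤ ENNReal.ofReal (g t)) →
      ∀ C₀ : ℝ, ∃ᶠ t in 𝓝[<] T,
        b * Real.log (1 / (T - t)) + C₀ < ∫ s in Ioo t₀ t, g s :=
  mis_main hb

end Pool.Agent.Results.MP_b0497c_an.OneMaximum
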