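import Pool.Agent.Helper706_TE.Main6

/-!
# Finite time blow-up for the Euler equations on `𝕋³` with an additional bilinear term of order zero

The complete Euler equations on `𝕋³` are perturbed by a bilinear term `B(u, u)` of order zero, which
is as small as one likes, acts only on frequencies as high as one likes, conserves the energy, the
helicity and the momentum and commutes with all isometries of the torus and with Galilei
transformations. Nevertheless all odd shear flows `g(n·x) e`, steady solutions of the Euler
equations, become singular in finite time under the perturbed equations, those with `g = A sin` by an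
explicit formula.
-/

set_option autoImplicit false

open Set Filter Topology MeasureTheory
open scoped ComplexConjugate ContDiff

namespace Pool.Agent.Results.MP_b0497c_an.OrderZeroPerturbation

open H706T

/-- For all `δ > 0` and `N` there is a symbol `M` of order zero with norm at most `δ` of a real
bilinear operator `B = op M` into the divergence-free fields on `𝕋³`, such that
(1) only triads of collinear frequencies of length at least `N` interact;
(2) for all periodic `C¹` fields the series of `B(v, w)` converges absolutely, `∫ B(v, w) · w = 0`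
(energy), `∫ B(v, v) · curl v = 0` (helicity), `∫ B(v, w) = 0` (momentum), and `B` commutes with
translations and with all permutations and changes of sign of the coordinates, and does not change
if constants are added to `v` and `w` (Galilei invariance);
(3) classical solutions of the Euler equations with the additional term `B(u, u)` are unique and
conserve the energy;
(4) for every frequency `n`, `|n| ≥ N`, with two non-zero components of different absolute values,
there is a unit vector `e` orthogonal to `n` such that
(a) no non-zero odd shear flow in the direction `e` survives: if `g` is `2π`-periodic and odd about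
some point `c`, then every classical solution on `[0, T)` with the initial velocity `g(n·x) e`
satisfies `δ T U ≤ 512 √2 π`, where `U` is the root mean square of the initial speed;
(b) for all `A > 0` the solution with the initial velocity `A sin(n·x) e` is given by an explicit
formula and is singular at the time `256 π / (δ A)`: its maximal speed is `A / cos(δ A t / 512)`. -/
theorem result (δ : ℝ) (hδ : 0 < δ) (N : ℕ) :
    ∃ M : K → K → W → W → W, IsSymbol δ M ∧
      (∀ p q a b, M p q a b ≠ 0 → (∀ i j, p i * q j = p j * q i) ∧
        (N : ℤ) ^ 2 ≤ ∑ i, p i ^ 2 ∧ (N : ℤ) ^ 2 ≤ ∑ i, q i ^ 2 ∧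
        (N : ℤ) ^ 2 ≤ ∑ i, (p + q) i ^ 2) ∧
      (∀ v w : V → V, ContDiff ℝ 1 v → ContDiff ℝ 1 w → Periodic3 v → Periodic3 w →
        (Summable fun z : K × K => ‖M z.1 z.2 (coeff v z.1) (coeff w z.2)‖) ∧
        (∫ x in torus, ∑ i, op M v w x i * w x i = 0) ∧
        (∫ x in torus, ∑ i, op M v v x i * curl v x i = 0) ∧
        (∀ i, ∫ x in torus, op M v w x i = 0) ∧
        (∀ a x, op M (fun y => v (y + a)) (fun y => w (y + a)) x = op M v w (x + a)) ∧
        (∀ σ ε v' w', (∀ x, v' (actV σ ε x) = actV σ ε (v x)) →
          (∀ x, w' (actV σ ε x) = actV σ ε (w x)) →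
          ∀ x, op M v' w' (actV σ ε x) = actV σ ε (op M v w x)) ∧
        ∀ c c' x, op M (fun y => v y + c) (fun y => w y + c') x = op M v w x) ∧
      (∀ (T : ℝ) (u w : ℝ → V → V) (p q : ℝ → V → ℝ), IsSolution M T u p → IsSolution M T w q →
        w 0 = u 0 → ∀ t ∈ Ico 0 T, w t = u t) ∧
      (∀ (T : ℝ) (u : ℝ → V → V) (p : ℝ → V → ℝ), IsSolution M T u p → ∀ t ∈ Ico 0 T,
        ∫ x in torus, ∑ i, u t x i ^ 2 = ∫ x in torus, ∑ i, u 0 x i ^ 2) ∧
      ∀ n : K, (∃ i j, n i ≠ 0 ∧ n j ≠ 0 ∧ |n i| ≠ |n j|) → (N : ℤ) ^ 2 ≤ ∑ i, n i ^ 2 →
        ∃ e : V, ∑ i, e i ^ 2 = 1 ∧ ∑ i, (n i : ℝ) * e i = 0 ∧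
          (∀ (g : ℝ → ℝ) (c T : ℝ) (u : ℝ → V → V) (p : ℝ → V → ℝ),
            (∀ φ, g (φ + 2 * Real.pi) = g φ) → (∀ φ, g (c - φ) = -g (c + φ)) →
            IsSolution M T u p → (∀ x, u 0 x = g (dot n x) • e) →
            δ * T * Real.sqrt ((∫ x in torus, ∑ i, u 0 x i ^ 2) / (2 * Real.pi) ^ 3)
              ≤ 512 * Real.sqrt 2 * Real.pi) ∧
          ∀ A : ℝ, 0 < A →
          ∃ u : ℝ → V → V,
            (∀ t x, u t x = (A * (Real.cos (δ * A * t / 512) * Real.sin (dot n x)
              / (1 - 2 * Real.sin (δ * A * t / 512) * Real.cos (dot n x)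
                + Real.sin (δ * A * t / 512) ^ 2))) • e) ∧
            (∀ x, u 0 x = (A * Real.sin (dot n x)) • e) ∧
            IsSolution M (256 * Real.pi / (δ * A)) u (fun _ _ => 0) ∧
            (∀ t ∈ Ico 0 (256 * Real.pi / (δ * A)),
              IsGreatest (range fun x => Real.sqrt (∑ i, u t x i ^ 2))
                (A / Real.cos (δ * A * t / 512))) ∧
            ∀ (T' : ℝ) (w : ℝ → V → V) (q : ℝ → V → ℝ), IsSolution M T' w q → w 0 = u 0 →
              T' ≤ 256 * Real.pi / (δ * A) ∧ ∀ t ∈ Ico 0 T', w t = u t :=
  mainT2 δ hδ N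

end Pool.Agent.Results.MP_b0497c_an.OrderZeroPerturbation
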