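import Pool.Agent.Helper706_NS.Main4

/-!
# Energy-conserving self-similar blow-up for perturbations of the Euler equations

The bilinear term of the Euler equations on `ℝ³` is changed by a bilinear operator `B` which
conserves the energy and the helicity, commutes with translations, dilations, rotations about the
third axis and `x ↦ -x`, is of order one, and is as small as one likes in all critical norms. The
equations with this perturbation have a solution `v(t, x) = (1 - t)^(-3/5) V((1 - t)^(-2/5) x)` with
smooth `V ≠ 0` of finite energy, decreasing with all derivatives like any prescribed power of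
`1 / |x|`. These exponents are the only ones for which the energy is finite and constant.
-/

set_option autoImplicit false

open Set Filter Topology MeasureTheory
open scoped ComplexConjugate ContDiff

namespace Pool.Agent.Results.MP_b0497c_an.SelfSimilarPerturbation

open H706N

/-- There are bilinear Fourier multiplier operators `op (M i)`, `i = 0, 1, 2, …`, acting on Fourier
transforms `g` of real divergence-free fields `vel g` on `ℝ³`, such that
(1) the symbols `M i` are of order one, homogeneous, invariant under the rotations about the third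
axis and under `k ↦ -k`, and vanish unless at least two of the frequencies `p`, `q`, `p + q` satisfy
`|k₃| ≤ |k| / (i + 2)`;
(2) the operators map fields of the class `Adm` to fields of this class, satisfy
`⟨B(g, h), h⟩ = 0` (energy) and `⟨B(g, g), curl g⟩ = 0` (helicity), and commute with translations,
dilations, rotations about the third axis and the reflection at the origin;
(3) `|⟨B(f, g), h⟩| ≤ δ ‖f‖_α ‖g‖_β ‖h‖_γ` in homogeneous Sobolev norms for all sufficiently
large `i`, for each `δ > 0` and all exponents with `α + β + γ = 5/2`, `|α| < 3/2`, `β, γ < 5/2`;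
(4) the solutions `u` (in Fourier variables) of the Euler equations with the additional term
`B(u, u)` are classical solutions;
(5) for all `i` there is such a solution on `[0, 1)` with
`v(t, x) = (1 - t)^(-3/5) v(0, (1 - t)^(-2/5) x)`, where `v(0) ≠ 0` has finite energy and its
derivatives of all orders are `O(|x|^(-i-4))`. It is unique and maximal. -/
theorem result :
    ∃ M : ℕ → E → E → W → W → W,
      (∀ i, Sym (M i) ∧ (∃ C, Bdd C (M i)) ∧ Inv (M i) ∧ ∀ p q a b,
        (p ∉ band (1 / (i + 2)) ∧ q ∉ band (1 / (i + 2))) ∨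
        (p ∉ band (1 / (i + 2)) ∧ p + q ∉ band (1 / (i + 2))) ∨
        (q ∉ band (1 / (i + 2)) ∧ p + q ∉ band (1 / (i + 2))) → M i p q a b = 0) ∧
      (∀ i g h, Adm g → Adm h → Adm (op (M i) g h) ∧
        pr (op (M i) g h) h = 0 ∧ pr (op (M i) g g) (crl g) = 0 ∧
        (∀ a, op (M i) (tr a g) (tr a h) = tr a (op (M i) g h)) ∧
        (∀ r : ℝ, 0 < r → ∀ k, op (M i) (dil r g) (dil r h) k = op (M i) g h (r⁻¹ • k)) ∧
        (∀ θ, op (M i) (rot θ g) (rot θ h) = rot θ (op (M i) g h)) ∧
        op (M i) (par g) (par h) = par (op (M i) g h)) ∧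
      (∀ α β γ δ : ℝ, α + β + γ = 5 / 2 → -(3 / 2) < α → α < 3 / 2 → β < 5 / 2 → γ < 5 / 2 →
        0 < δ → ∃ i₀, ∀ i ≥ i₀, ∀ f g h, Adm f → Adm g → Adm h →
          |pr (op (M i) f g) h| ≤ δ * nrm α f * nrm β g * nrm γ h) ∧
      (∀ i T u, Sol 0 (op (M i)) T u →
        ∃ p, Cls 0 T (fun t => vel (u t)) p fun t => vel (op (M i) (u t) (u t))) ∧
      ∀ i, ∃ u : ℝ → E → W, Sol 0 (op (M i)) 1 u ∧ (∃ x, vel (u 0) x ≠ 0) ∧
        (∀ r : ℕ, ∃ C, ∀ x, (1 + ‖x‖) ^ (i + 4) * ‖iteratedFDeriv ℝ r (vel (u 0)) x‖ ≤ C) ∧
        (Integrable fun x => ‖vel (u 0) x‖ ^ 2) ∧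
        (∀ t ∈ Ico 0 1, ∀ x, vel (u t) x
          = (1 - t) ^ (-(3 / 5) : ℝ) • vel (u 0) ((1 - t) ^ (-(2 / 5) : ℝ) • x)) ∧
        ∀ T' w, Sol 0 (op (M i)) T' w → w 0 = u 0 →
          T' ≤ 1 ∧ ∀ t ∈ Ico 0 T', vel (w t) = vel (u t) :=
  mainUE

end Pool.Agent.Results.MP_b0497c_an.SelfSimilarPerturbation
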